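import Mathlib
import Pool.Agent.Lib.MP_302921_gt.Defs
import Pool.Agent.Lib.MP_302921_gt.Main
import Pool.Agent.Lib.RM48.Dia.Main

/-!
# It is consistent with `ZFC` that some separable compact non-metrizable `X` has `X × X` t-extendial

The definitions for models of set theory are in `Pool.Agent.Lib.RM48.Dia.Defs` (`◇` in a model),
`Pool.Agent.Lib.RM48.Defs` (`ZFC`), `Pool.Agent.Lib.SymZF.ZF` (`ZF`) and
`Pool.Agent.Lib.SymZF.IntDefs` (ordered pairs, `ω`); those for function spaces are in
`Pool.Agent.Lib.MP_302921_gt.Defs`.
-/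

set_option autoImplicit false

namespace Pool.Agent.Results.MP_302921_gt.ConsistentExample

open Pool.Agent.Lib.SymZF Pool.Agent.Lib.RM48 Pool.Agent.Lib.MP_302921_gt

/-- (1) There is a countable well-founded model `(M, E)` of `ZFC` in which Jensen's `◇` holds.
(2) `◇` implies that there is a separable compact Hausdorff space `X` which is not metrizable
although `X × X` is t-extendial. -/
theorem result :
    (∃ (M : Type) (E : M → M → Prop), Countable M ∧ WellFounded E ∧ IsZFC E ∧ DiamondIn E) ∧
    (Diamond → ∃ (X : Type) (_ : TopologicalSpace X), CompactSpace X ∧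
      T2Space X ∧ TopologicalSpace.SeparableSpace X ∧ ¬ TopologicalSpace.MetrizableSpace X ∧
      TExtendial (X × X)) := by
  refine ⟨?_, fun h => main h⟩
  obtain ⟨M, E, h1, h2, _, h4, h5⟩ := exists_diamond_model
  exact ⟨M, E, h1, h2, h4, h5⟩

end Pool.Agent.Results.MP_302921_gt.ConsistentExample
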